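import Mathlib
import Pool.Agent.Helper78.ResetDefs
import Pool.Agent.Helper78.ResetProof

/-!
# Recognising reset Mealy automata is PSPACE-hard

The definitions (Mealy automata, reset automata, their coding by bit strings, the decision problem
`RESET`, one-tape Turing machines and the class `PSPACE`) are in `Pool.Agent.Helper78.ResetDefs`.
-/

namespace Pool.Agent.Results.MP_5adc07_lc.ResetHard

open Pool.Agent.Helper78.Reset

/-- RESET is PSPACE-hard: every language `L` in PSPACE is many-one reducible to RESET by a function
`f` on bit strings which is computable in polynomial time by a Turing machine, in the sense of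
Mathlib's `Turing.TM2ComputableInPolyTime` (the encodings of the strings `x` and `f x` are `x` and
`f x` themselves). -/
theorem result : ∀ L ∈ PSPACE, ∃ f : List Bool → List Bool,
    Nonempty (Turing.TM2ComputableInPolyTime (id : List Bool → List Bool)
      (id : List Bool → List Bool) f) ∧ ∀ x, x ∈ L ↔ f x ∈ RESET :=
  reset_pspace_hard

end Pool.Agent.Results.MP_5adc07_lc.ResetHard
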